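import Pool.Agent.Helper45.RK.GoalsJ

/-!
# FIBTK: `2k` independent translations of each fibre
-/

open Complex Metric Set Filter Topology
open scoped ContDiff ComplexConjugate Matrix ComplexOrder

namespace Pool.Agent.Helper65.RK

open Pool.Agent.Helper95.Lin Pool.Agent.Helper10.SP Pool.Agent.Helper95.RK Pool.Agent.Helper45.SP
open Pool.Agent.Helper45.RK

/-- `2k` independent translations of each fibre. -/
theorem fibtk (h1 : S_FIBGK) (h2 : S_AFB) (h3 : S_A1K) (h4 : S_FIXG) : S_FIBTK := by
  intro b k N c R P Φ Hf C hA hD i z hz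
  obtain ⟨-, v, hv, hli⟩ := h2 (h1 c R P Φ Hf C hA hD i z hz)
  obtain ⟨hbig, -⟩ := h4 c R P Φ Hf C hA i
  choose t ht using hv
  have e : (fun l => (t l).β z) = v := by
    funext l
    exact (congrArg Prod.snd (ht l).2).symm
  refine ⟨t, fun l => hbig _ (ht l).1, fun l y hy => ⟨(ht l).1.2 y hy, ?_⟩, ?_⟩
  · exact h3 c R P Φ Hf C hA i (t l) (ht l).1 z (ball_subset_ball (by norm_num) hz)
      (congrArg Prod.fst (ht l).2).symm y hy
  · rw [e]
    exact hli

end Pool.Agent.Helper65.RK
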