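import Pool.Agent.Helper15.RK.GoalsF
import Pool.Agent.Helper57.SP.DDA

/-!
# Packet RK LDM: logarithm of the transversal determinant, and of the potential
-/

open Complex Metric Set Filter Topology MeasureTheory
open scoped ContDiff ComplexConjugate ComplexOrder Manifold Matrix

namespace Pool.Agent.Helper65.RK

open Pool.Agent.Helper95.Lin Pool.Agent.Helper16.Abund Pool.Agent.Helper92.Orb
  Pool.Agent.Helper10.SP Pool.Agent.Helper95.RK Pool.Agent.Helper15.RK
open Pool.Agent.Helper29.SP
open Pool.Agent.Helper57.SP (Dv_det fderiv_log)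

variable {b k n : ℕ}

/-- A vector in the kernel of `L` is a combination of the `w i`. -/
theorem ker_span {L : Cn (b + k) →ₗ[ℂ] Cn k} {w : Fin b → Cn (b + k)} {v : Fin k → Cn (b + k)}
    (hP : (PM w v).det ≠ 0) (hv : ∀ α, L (v α) = Pi.single α 1) (hw : ∀ i, L (w i) = 0)
    {e : Cn (b + k)} (he : L e = 0) : ∃ c : Fin b → ℂ, ∀ i, e i = ∑ l, c l * w l i := by
  have hu : IsUnit (PM w v).det := isUnit_iff_ne_zero.2 hP
  set a : Fin (b + k) → ℂ := (PM w v)⁻¹ *ᵥ e with ha
  have h1 : (PM w v) *ᵥ a = e := by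
    rw [ha, Matrix.mulVec_mulVec, Matrix.mul_nonsing_inv _ hu, Matrix.one_mulVec]
  have h2 : e = ∑ l : Fin b, a (Fin.castAdd k l) • w l + ∑ α : Fin k, a (Fin.natAdd b α) • v α := by
    rw [← h1]
    funext i
    simp only [Matrix.mulVec, dotProduct, PM, Matrix.of_apply, Fin.sum_univ_add,
      Fin.append_left, Fin.append_right, Pi.add_apply, Finset.sum_apply, Pi.smul_apply,
      smul_eq_mul]
    congr 1 <;> exact Finset.sum_congr rfl fun l _ => mul_comm _ _
  have h3 : ∀ α : Fin k, a (Fin.natAdd b α) = 0 := by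
    intro α
    have h4 := congrArg L h2
    rw [he, map_add, map_sum, map_sum] at h4
    simp only [map_smul, hw, hv, smul_zero, Finset.sum_const_zero, zero_add] at h4
    have h5 := congrFun h4 α
    simp only [Pi.zero_apply, Finset.sum_apply, Pi.smul_apply, Pi.single_apply, smul_eq_mul,
      mul_ite, mul_one, mul_zero, Finset.sum_ite_eq, Finset.mem_univ, if_true] at h5
    exact h5.symm
  refine ⟨fun l => a (Fin.castAdd k l), fun i => ?_⟩
  have h4 := congrFun h2 i
  simp only [Pi.add_apply, Finset.sum_apply, Pi.smul_apply, smul_eq_mul, h3, zero_mul,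
    Finset.sum_const_zero, add_zero] at h4
  exact h4

/-- The trace of a matrix with image in the span of the `w i`. -/
theorem trace_span {L : Cn (b + k) →ₗ[ℂ] Cn k} {w : Fin b → Cn (b + k)} {v : Fin k → Cn (b + k)}
    (hP : (PM w v).det ≠ 0) (hv : ∀ α, L (v α) = Pi.single α 1) (hw : ∀ i, L (w i) = 0)
    (B : Matrix (Fin (b + k)) (Fin (b + k)) ℂ) (hB : ∀ l, L (fun j => B j l) = 0) :
    ∃ c : Fin b → Fin b → ℂ, (∀ i j, ∑ p, B j p * w i p = ∑ l, c i l * w l j) ∧
      Matrix.trace B = ∑ i, c i i := by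
  have h1 : ∀ u : Cn (b + k), L (fun j => ∑ p, B j p * u p) = 0 := by
    intro u
    have h2 : (fun j => ∑ p, B j p * u p) = ∑ p, u p • (fun j => B j p) := by
      funext j
      simp only [Finset.sum_apply, Pi.smul_apply, smul_eq_mul]
      exact Finset.sum_congr rfl fun p _ => mul_comm _ _
    rw [h2, map_sum]
    simp only [map_smul, hB, smul_zero, Finset.sum_const_zero]
  have h2 : ∀ j : Fin (b + k), ∃ c : Fin b → ℂ, ∀ i, ∑ p, B i p * Fin.append w v j p =
      ∑ l, c l * w l i := fun j => ker_span hP hv hw (h1 (Fin.append w v j))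
  choose c hc using h2
  have hu : IsUnit (PM w v).det := isUnit_iff_ne_zero.2 hP
  set B' : Matrix (Fin (b + k)) (Fin (b + k)) ℂ := Matrix.of fun i j =>
    Fin.addCases (motive := fun _ => ℂ) (fun l => c j l) (fun _ => 0) i with hB'
  have h3 : PM w v * B' = B * PM w v := by
    ext i j
    simp only [Matrix.mul_apply, PM, Matrix.of_apply, hB', Fin.sum_univ_add, Fin.append_left,
      Fin.append_right, Fin.addCases_left, Fin.addCases_right, mul_zero, Finset.sum_const_zero,
      add_zero]
    rw [← Fin.sum_univ_add (fun p => B i p * Fin.append w v j p), hc j i]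
    exact Finset.sum_congr rfl fun l _ => mul_comm _ _
  refine ⟨fun i l => c (Fin.castAdd k i) l, fun i j => ?_, ?_⟩
  · have h4 := hc (Fin.castAdd k i) j
    simpa only [Fin.append_left] using h4
  · have h4 : B = PM w v * B' * (PM w v)⁻¹ := by
      rw [h3, Matrix.mul_assoc, Matrix.mul_nonsing_inv _ hu, Matrix.mul_one]
    rw [h4, Matrix.trace_mul_comm, ← Matrix.mul_assoc, Matrix.nonsing_inv_mul _ hu,
      Matrix.one_mul]
    simp only [Matrix.trace, Matrix.diag, hB', Matrix.of_apply, Fin.sum_univ_add,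
      Fin.addCases_left, Fin.addCases_right, Finset.sum_const_zero, add_zero]

/-- The derivative of the transversal determinant. -/
theorem Dv_mdet (hWIRT : S_WIRT) (hLMF : S_LMF) (hKFB : S_KFB) (hDERK : S_DERK)
    {Φ : Cn (b + k) → ℝ} {W : Set (Cn (b + k))}
    {L : Cn (b + k) →ₗ[ℂ] Cn k} {w : Fin b → Cn (b + k)} {v : Fin k → Cn (b + k) → Cn (b + k)}
    (hF : KFr Φ W L w v) {x : Cn (b + k)} (hx : x ∈ W) (α : Fin k) :
    Dv (v α) (mdet Φ w) x = - Matrix.trace (Bm (v α) x) * mdet Φ w x := by
  have hO := hF.isOpen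
  obtain ⟨hsm, -, -, -⟩ := hLMF W hO Φ hF.smP
  obtain ⟨-, -, hP, -⟩ := hKFB hF
  have hder := hDERK hF x hx
  obtain ⟨c, hc1, hc2⟩ := trace_span (hP x hx) (fun α => hF.norm x hx α) hF.Lw (Bm (v α) x)
    (fun l => (hder.2.2.2.2.2.2 α l).2)
  set R : Cn (b + k) → Matrix (Fin b) (Fin b) ℂ := fun y =>
    Matrix.of fun i j : Fin b => hermi (LM Φ y) (w i) (w j) with hR
  have hsmE : ∀ i j : Fin b, ∀ p q, ContDiffOn ℝ ∞ (fun y => LM Φ y p q * (w i p *
      conj (w j q))) W := fun i j p q => (hsm p q).mul contDiffOn_const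
  have hRe : ∀ i j : Fin b, (fun y => R y i j) = fun y => ∑ p, ∑ q, LM Φ y p q * (w i p *
      conj (w j q)) := by
    intro i j
    funext y
    simp only [hR, Matrix.of_apply, hermi]
    exact Finset.sum_congr rfl fun p _ => Finset.sum_congr rfl fun q _ => by ring
  have hRs : ∀ i j : Fin b, ContDiffOn ℝ ∞ (fun y => R y i j) W := by
    intro i j
    rw [hRe]
    exact ContDiffOn.sum fun p _ => ContDiffOn.sum fun q _ => hsmE i j p q
  have hRd : ∀ i j : Fin b, DifferentiableAt ℝ (fun y => R y i j) x := fun i j =>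
    ((hRs i j).contDiffAt (hO.mem_nhds hx)).differentiableAt (by simp)
  have h0 : mdet Φ w = fun y => (R y).det := rfl
  rw [h0, Dv_det (v α) R hRd]
  have hconst : ∀ z : ℂ, Dv (v α) (fun _ => z) x = 0 := by
    intro z
    unfold Dv cd
    simp
  have h1 : ∀ l p, Dv (v α) (fun y => R y l p) x = ∑ m, - c l m * R x m p := by
    intro l p
    rw [hRe, Dv_sum hWIRT hO (v α) Finset.univ (f := fun i y => ∑ q, LM Φ y i q * (w l i *
      conj (w p q))) (fun i => ContDiffOn.sum fun q _ => hsmE l p i q) hx]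
    have h2 : ∀ i, Dv (v α) (fun y => ∑ q, LM Φ y i q * (w l i * conj (w p q))) x =
        ∑ q, (- ∑ m, Bm (v α) x m i * LM Φ x m q) * (w l i * conj (w p q)) := by
      intro i
      rw [Dv_sum hWIRT hO (v α) Finset.univ (f := fun q y => LM Φ y i q * (w l i *
        conj (w p q))) (fun q => hsmE l p i q) hx]
      refine Finset.sum_congr rfl fun q _ => ?_
      rw [Dv_mul hWIRT hO (v α) (hsm i q) contDiffOn_const hx, hconst, mul_zero, add_zero,
        hder.2.2.2.2.2.1 α i q]
    simp only [h2]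
    have h3 : ∑ i, ∑ q, (- ∑ m, Bm (v α) x m i * LM Φ x m q) * (w l i * conj (w p q)) =
        - ∑ m, ∑ q, (∑ i, Bm (v α) x m i * w l i) * (LM Φ x m q * conj (w p q)) := by
      rw [← Finset.sum_neg_distrib]
      calc ∑ i, ∑ q, (- ∑ m, Bm (v α) x m i * LM Φ x m q) * (w l i * conj (w p q))
          = ∑ i, ∑ q, ∑ m, - (Bm (v α) x m i * w l i * (LM Φ x m q * conj (w p q))) := by
            refine Finset.sum_congr rfl fun i _ => Finset.sum_congr rfl fun q _ => ?_
            rw [neg_mul, Finset.sum_mul, ← Finset.sum_neg_distrib]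
            exact Finset.sum_congr rfl fun m _ => by ring
        _ = ∑ m, ∑ q, ∑ i, - (Bm (v α) x m i * w l i * (LM Φ x m q * conj (w p q))) := by
            rw [Finset.sum_comm]
            conv_lhs =>
              arg 2
              ext q
              rw [Finset.sum_comm]
            rw [Finset.sum_comm]
        _ = _ := by
            refine Finset.sum_congr rfl fun m _ => ?_
            rw [← Finset.sum_neg_distrib]
            refine Finset.sum_congr rfl fun q _ => ?_
            rw [Finset.sum_mul, ← Finset.sum_neg_distrib]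
    rw [h3]
    simp only [hc1 l]
    have h4 : ∀ m, R x m p = ∑ j, ∑ q, LM Φ x j q * (w m j * conj (w p q)) := fun m =>
      congrFun (hRe m p) x
    simp only [h4]
    rw [← Finset.sum_neg_distrib]
    calc ∑ j, -∑ q, (∑ m, c l m * w m j) * (LM Φ x j q * conj (w p q))
        = ∑ j, ∑ q, ∑ m, - c l m * (LM Φ x j q * (w m j * conj (w p q))) := by
          refine Finset.sum_congr rfl fun j _ => ?_
          rw [← Finset.sum_neg_distrib]
          refine Finset.sum_congr rfl fun q _ => ?_
          rw [Finset.sum_mul, ← Finset.sum_neg_distrib]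
          exact Finset.sum_congr rfl fun m _ => by ring
      _ = ∑ m, ∑ j, ∑ q, - c l m * (LM Φ x j q * (w m j * conj (w p q))) := by
          conv_lhs =>
            arg 2
            ext j
            rw [Finset.sum_comm]
          rw [Finset.sum_comm]
      _ = _ := by
          refine Finset.sum_congr rfl fun m _ => ?_
          rw [Finset.mul_sum]
          refine Finset.sum_congr rfl fun j _ => ?_
          rw [Finset.mul_sum]
  have h5 : ∀ l, ((R x).updateRow l (fun p => Dv (v α) (fun y => R y l p) x)).det =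
      - c l l * (R x).det := by
    intro l
    have h6 : (fun p => Dv (v α) (fun y => R y l p) x) = ∑ m, (- c l m) • R x m := by
      funext p
      rw [h1 l p, Finset.sum_apply]
      rfl
    rw [h6, Matrix.det_updateRow_sum, smul_eq_mul]
  simp only [h5]
  rw [← Finset.sum_mul, Finset.sum_neg_distrib, hc2]

/-- **Packet LDM.** -/
theorem ldm (hWIRT : S_WIRT) (hLMF : S_LMF) (hKFB : S_KFB) (hDERK : S_DERK) (hLEVK : S_LEVK) :
    S_LDM := by
  intro b k Φ W L w v hF x hx α β
  have hO := hF.isOpen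
  have hvs : ∀ α j, ContDiffOn ℝ ∞ (fun y => v α y j) W := fun α j =>
    contDiffOn_pi.mp (hF.smv α) j
  have hcd : ∀ f : Cn (b + k) → ℂ, ContDiffOn ℝ ∞ f W → ∀ l, ContDiffOn ℝ ∞ (cd l f) W :=
    fun f hf l => ((hWIRT W hO f f hf hf).1 l).1
  constructor
  · rw [← hLEVK hF Φ hF.smP x hx α β]
    unfold hermi
    rw [Finset.sum_comm]
    refine Finset.sum_eq_zero fun j _ => ?_
    rw [← Finset.sum_mul, hF.ker x hx α j, zero_mul]
  · obtain ⟨hDp, hDsm, -, -⟩ := hKFB hF
    set D : Cn (b + k) → ℂ := mdet Φ w with hD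
    set Lg : Cn (b + k) → ℂ := fun y => ((Real.log (D y).re : ℝ) : ℂ) with hL
    have hLs : ContDiffOn ℝ ∞ Lg W := by
      have h1 : ContDiffOn ℝ ∞ (fun y => (D y).re) W :=
        Complex.reCLM.contDiff.comp_contDiffOn hDsm
      exact Complex.ofRealCLM.contDiff.comp_contDiffOn (h1.log fun y hy => (hDp y hy).2.ne')
    have hcdL : ∀ y ∈ W, ∀ l, cd l Lg y = cd l D y / D y := by
      intro y hy l
      unfold cd
      rw [fderiv_log hO hDsm hDp hy, fderiv_log hO hDsm hDp hy]
      ring
    have hDvL : ∀ y ∈ W, Dv (v α) Lg y = - Matrix.trace (Bm (v α) y) := by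
      intro y hy
      have h1 : Dv (v α) Lg y = Dv (v α) D y / D y := by
        unfold Dv
        rw [Finset.sum_div]
        refine Finset.sum_congr rfl fun l _ => ?_
        rw [hcdL y hy l]
        ring
      have hne : D y ≠ 0 := by
        intro h0
        have := (hDp y hy).2
        rw [h0] at this
        simp at this
      rw [h1, hD, Dv_mdet hWIRT hLMF hKFB hDERK hF hy α]
      exact mul_div_cancel_right₀ _ hne
    have hB : SM W (Bm (v α)) := fun j l => hcd _ (hvs α j) l
    have hder := hDERK hF x hx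
    show Dv (v α) (Dvb (v β) Lg) x = _
    rw [(hder.2.2.2.1 Lg hLs α β).1, Dvb_congr hO hDvL hx (v β)]
    have hBt : ContDiffOn ℝ ∞ (fun y => Matrix.trace (Bm (v α) y)) W := by
      unfold Matrix.trace
      exact ContDiffOn.sum fun m _ => hB m m
    rw [Dvb_neg hWIRT hO (v β) hBt hx, Dvb_trace hWIRT hO (v β) hB hx]
    have h1 : DbM (v β) (Bm (v α)) x = -(Tm (v α) x * mc (Tm (v β) x)) := by
      ext j l
      exact hder.2.2.2.2.1 α β j l
    rw [h1, Matrix.trace_neg, neg_neg]

end Pool.Agent.Helper65.RK
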